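import Pool.Agent.Helper30.LQ.St

/-!
# Project LQ, module GSM: finite Euler product
-/

set_option autoImplicit false

namespace Pool.Agent.Helper36.LQ

open Finset Pool.Agent.Helper30.LQ

private theorem gg_one_GSM : gg 1 = 1 := by
  simp [gg]

private theorem gg_mul_GSM {m n : ℕ} (h : Nat.Coprime m n) : gg (m * n) = gg m * gg n := by
  unfold gg
  rw [h.primeFactors_mul, Finset.sum_union h.disjoint_primeFactors, mul_add, Real.exp_add]

private theorem gg_pos_GSM (a : ℕ) : 0 < gg a := Real.exp_pos _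

private theorem gg_pow_GSM {p : ℕ} (hp : p.Prime) (n : ℕ) :
    gg (p ^ (n + 1)) = Real.exp (2 / (p : ℝ)) := by
  unfold gg
  rw [Nat.primeFactors_prime_pow (Nat.succ_ne_zero n) hp, Finset.sum_singleton]
  congr 1
  ring

private theorem geo_GSM {p : ℕ} (hp : p.Prime) :
    HasSum (fun n : ℕ => gg (p ^ n) / ((p ^ n : ℕ) : ℝ)) (1 + Real.exp (2 / (p : ℝ)) / ((p : ℝ) - 1)) := by
  have hp1 : (1 : ℝ) < p := by exact_mod_cast hp.one_lt
  have hp0 : (0 : ℝ) < p := by linarith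
  have h1 : HasSum (fun n : ℕ => ((1 : ℝ) / p) ^ n) (1 - 1 / (p : ℝ))⁻¹ :=
    hasSum_geometric_of_lt_one (by positivity) (by rw [div_lt_one hp0]; exact hp1)
  have h2 := h1.mul_left (Real.exp (2 / (p : ℝ)) * (1 / p))
  have e0 : Real.exp (2 / (p : ℝ)) * (1 / p) * (1 - 1 / (p : ℝ))⁻¹ =
      Real.exp (2 / (p : ℝ)) / ((p : ℝ) - 1) := by
    have h3 : (p : ℝ) - 1 ≠ 0 := by linarith
    field_simp
  rw [e0] at h2
  have h4 : HasSum (fun n : ℕ => gg (p ^ (n + 1)) / ((p ^ (n + 1) : ℕ) : ℝ))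
      (Real.exp (2 / (p : ℝ)) / ((p : ℝ) - 1)) := by
    refine h2.congr_fun ?_ |> fun h => h
    intro n
    rw [gg_pow_GSM hp n]
    push_cast
    rw [div_pow, one_pow, pow_succ]
    field_simp
  have h5 := (hasSum_nat_add_iff (f := fun n : ℕ => gg (p ^ n) / ((p ^ n : ℕ) : ℝ)) 1).1 h4
  have e1 : ∑ i ∈ range 1, gg (p ^ i) / ((p ^ i : ℕ) : ℝ) = 1 := by
    simp [gg_one_GSM]
  rw [e1, add_comm] at h5
  exact h5

private theorem fac_GSM {p : ℕ} (h7 : 7 ≤ p) :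
    1 + Real.exp (2 / (p : ℝ)) / ((p : ℝ) - 1) ≤ Real.exp (1 / (p : ℝ) + 5 * (1 / (p : ℝ) ^ 2)) := by
  have hp : (7 : ℝ) ≤ p := by exact_mod_cast h7
  have hp0 : (0 : ℝ) < p := by linarith
  have h1 : Real.exp (2 / (p : ℝ)) ≤ 1 + 2 / p + (2 / p) ^ 2 := by
    have hx : |(2 : ℝ) / p| ≤ 1 := by
      rw [abs_of_pos (by positivity), div_le_one hp0]
      linarith
    have := (abs_le.1 (Real.abs_exp_sub_one_sub_id_le hx)).2
    linarith
  have h2 : Real.exp (2 / (p : ℝ)) / ((p : ℝ) - 1) ≤ 1 / (p : ℝ) + 5 * (1 / (p : ℝ) ^ 2) := by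
    rw [div_le_iff₀ (by linarith)]
    refine h1.trans ?_
    have e : (1 / (p : ℝ) + 5 * (1 / (p : ℝ) ^ 2)) * ((p : ℝ) - 1) - (1 + 2 / p + (2 / p) ^ 2) =
        (2 * p - 9) / (p : ℝ) ^ 2 := by
      field_simp
      ring
    have h3 : 0 ≤ (2 * (p : ℝ) - 9) / (p : ℝ) ^ 2 := div_nonneg (by linarith) (by positivity)
    linarith
  calc 1 + Real.exp (2 / (p : ℝ)) / ((p : ℝ) - 1) ≤ (1 / (p : ℝ) + 5 * (1 / (p : ℝ) ^ 2)) + 1 := by
        linarith
    _ ≤ _ := Real.add_one_le_exp _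

/-- MODULE GSM -/
theorem hGSM (hM : StMR4) : StGSM := by
  classical
  obtain ⟨C, hC, hM⟩ := hM
  have hsum2 : Summable (fun n : ℕ => 1 / (n : ℝ) ^ 2) := by
    exact_mod_cast Real.summable_one_div_nat_pow.2 (by norm_num : 1 < 2)
  obtain ⟨Z, hZ⟩ : ∃ Z, Z = ∑' n : ℕ, 1 / (n : ℝ) ^ 2 := ⟨_, rfl⟩
  refine ⟨Real.exp (C + 5 * Z), Real.exp_pos _, ?_⟩
  intro V hV
  obtain ⟨s, hs⟩ : ∃ s : Finset ℕ, s = (Icc 1 V).filter (fun l => l.Prime ∧ l % 3 = 1) := ⟨_, rfl⟩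
  have hV3 : (3 : ℝ) ≤ V := by exact_mod_cast hV
  have hmem : ∀ l ∈ s, l.Prime ∧ l % 3 = 1 := fun l hl => by
    rw [hs, mem_filter] at hl
    exact hl.2
  have h7 : ∀ l ∈ s, 7 ≤ l := by
    intro l hl
    obtain ⟨hp, h3⟩ := hmem l hl
    by_contra hcon
    push Not at hcon
    interval_cases l <;> revert hp h3 <;> decide
  -- Euler product
  have hE := (EulerProduct.summable_and_hasSum_factoredNumbers_prod_filter_prime_tsum
    (f := fun a : ℕ => gg a / (a : ℝ)) (by simp [gg_one_GSM])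
    (fun {m n} h => by
      simp only [Nat.cast_mul]
      rw [gg_mul_GSM h, mul_div_mul_comm])
    (fun {p} hp => by
      have := (geo_GSM hp).summable
      exact this.norm) s).2
  have hprime : s.filter (fun p => p.Prime) = s :=
    Finset.filter_true_of_mem (fun l hl => (hmem l hl).1)
  rw [hprime] at hE
  have hprod : ∏ p ∈ s, ∑' n : ℕ, gg (p ^ n) / ((p ^ n : ℕ) : ℝ) =
      ∏ p ∈ s, (1 + Real.exp (2 / (p : ℝ)) / ((p : ℝ) - 1)) :=
    Finset.prod_congr rfl (fun p hp => (geo_GSM (hmem p hp).1).tsum_eq)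
  rw [hprod] at hE
  have hI := (hasSum_subtype_iff_indicator (f := fun a : ℕ => gg a / (a : ℝ))
    (s := (Nat.factoredNumbers s : Set ℕ))).1 hE
  have hnn : ∀ a : ℕ, 0 ≤ gg a / (a : ℝ) := fun a => div_nonneg (gg_pos_GSM a).le (Nat.cast_nonneg a)
  obtain ⟨T, hT⟩ : ∃ T : Finset ℕ, T = (Icc 1 V).filter
    (fun a => ∀ l : ℕ, l.Prime → l ∣ a → l % 3 = 1) := ⟨_, rfl⟩
  have hTs : ∑ a ∈ T, gg a / (a : ℝ) ≤ ∏ p ∈ s, (1 + Real.exp (2 / (p : ℝ)) / ((p : ℝ) - 1)) := by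
    have h1 := sum_le_hasSum T (fun a _ => Set.indicator_nonneg (fun a _ => hnn a) a) hI
    refine le_trans (le_of_eq ?_) h1
    refine Finset.sum_congr rfl fun a ha => ?_
    rw [hT, mem_filter, mem_Icc] at ha
    rw [Set.indicator_of_mem]
    rw [Nat.mem_factoredNumbers]
    refine ⟨by omega, fun p hp => ?_⟩
    have hpp := Nat.prime_of_mem_primeFactorsList hp
    have hpd := Nat.dvd_of_mem_primeFactorsList hp
    rw [hs, mem_filter, mem_Icc]
    exact ⟨⟨hpp.one_le, (Nat.le_of_dvd (by omega) hpd).trans ha.1.2⟩, hpp, ha.2 p hpp hpd⟩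
  have hPs : ∏ p ∈ s, (1 + Real.exp (2 / (p : ℝ)) / ((p : ℝ) - 1)) ≤
      Real.exp (∑ p ∈ s, (1 / (p : ℝ) + 5 * (1 / (p : ℝ) ^ 2))) := by
    rw [Real.exp_sum]
    refine Finset.prod_le_prod (fun p hp => ?_) (fun p hp => fac_GSM (h7 p hp))
    have : (7 : ℝ) ≤ p := by exact_mod_cast h7 p hp
    have h2 : 0 ≤ Real.exp (2 / (p : ℝ)) / ((p : ℝ) - 1) :=
      div_nonneg (Real.exp_pos _).le (by linarith)
    linarith
  have hS1 : ∑ p ∈ s, (1 : ℝ) / p ≤ Real.log (Real.log V) / 2 + C := by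
    have h1 := hM V hV3
    rw [Nat.floor_natCast] at h1
    rw [hs]
    convert h1
  have hS2 : ∑ p ∈ s, 1 / (p : ℝ) ^ 2 ≤ Z := by
    rw [hZ]
    exact hsum2.sum_le_tsum _ (fun n _ => by positivity)
  have hlog : 0 < Real.log V := Real.log_pos (by linarith)
  have hfin : Real.exp (∑ p ∈ s, (1 / (p : ℝ) + 5 * (1 / (p : ℝ) ^ 2))) ≤
      Real.exp (C + 5 * Z) * √(Real.log V) := by
    have h2 : √(Real.log V) = Real.exp (Real.log (Real.log V) / 2) := by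
      rw [Real.sqrt_eq_rpow, Real.rpow_def_of_pos hlog]
      congr 1
      ring
    rw [h2, ← Real.exp_add]
    apply Real.exp_le_exp.2
    rw [Finset.sum_add_distrib, ← Finset.mul_sum]
    linarith
  have hgoal : ∑ a ∈ T, gg a / (a : ℝ) ≤ Real.exp (C + 5 * Z) * √(Real.log V) :=
    hTs.trans (hPs.trans hfin)
  rw [hT] at hgoal
  convert hgoal

end Pool.Agent.Helper36.LQ
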